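import Pool.Agent.Mg.Fcbe134.G7e0abb
import Pool.Agent.Mg.Fcbe134.G262689

/- The Broadhurst-Kreimer identity for the coefficients with `r ≥ k/2 - (log₂ k)/4 + 9/4`. -/

open Pool.Agent.MP_cbe134_nt

namespace Pool.Agent.Results.MP_cbe134_nt.DepthDrop

theorem result (k r : ℕ) (h : (k : ℝ) / 2 - Real.logb 2 k / 4 + 9 / 4 ≤ r) :
    (grDim r k : ℚ) = bkCoeff k r := by
  have hlog : Real.logb 2 k ≤ k := by
    rcases Nat.eq_zero_or_pos k with rfl | hk
    · simp
    · rw [Real.logb_le_iff_le_rpow one_lt_two (by exact_mod_cast hk), Real.rpow_natCast]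
      exact_mod_cast Nat.lt_two_pow_self.le
  have hlog2 : Real.logb 2 k ≤ 2 * k / 3 + 1 := by
    rcases Nat.eq_zero_or_pos k with rfl | hk
    · simp
    · have h1 : (0 : ℝ) < k := by exact_mod_cast hk
      have h2 : Real.logb 2 k = 1 + Real.logb 2 (k / 2) := by
        rw [Real.logb_div h1.ne' two_ne_zero, Real.logb_self_eq_one one_lt_two]; ring
      have h3 : Real.log (k / 2) ≤ k / 2 - 1 := Real.log_le_sub_one_of_pos (by positivity)
      have h4 : Real.log (k / 2 / Real.exp 1) ≤ k / 2 / Real.exp 1 - 1 :=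
        Real.log_le_sub_one_of_pos (by positivity)
      rw [Real.log_div (by positivity) (Real.exp_pos 1).ne', Real.log_exp] at h4
      have h5 : (k : ℝ) / 2 / Real.exp 1 ≤ k / 2 / 2 := by
        gcongr
        linarith [Real.add_one_le_exp (1 : ℝ)]
      have h6 := Real.log_two_gt_d9
      rw [h2, Real.logb, add_comm, add_le_add_iff_right, div_le_iff₀ (by linarith)]
      nlinarith
  have h1 : k + 9 ≤ 4 * r := by
    have : (k : ℝ) + 9 ≤ 4 * r := by linarith
    exact_mod_cast this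
  have h2 : k + 1 < 3 * r := by
    have : (k : ℝ) + 1 < 3 * r := by linarith
    exact_mod_cast this
  obtain ⟨s, rfl⟩ : ∃ s, r = s + 1 + 1 := ⟨r - 2, by omega⟩
  have hK : StmtK fun l => 2 * 4 ^ (l + 1) := fun l d hd => stmtE_exp l d hd
  have h3 := depth_drop hK k s fun l hl => by
    have hk : (0 : ℝ) < k := by exact_mod_cast (by omega : 0 < k)
    have h4 : ((2 * l + 5 : ℕ) : ℝ) ≤ Real.logb 2 k := by
      have : (l : ℝ) + 2 * s + 2 ≤ k := by exact_mod_cast hl
      push_cast at h ⊢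
      linarith
    rw [Real.le_logb_iff_rpow_le one_lt_two hk, Real.rpow_natCast] at h4
    have h5 : 2 ^ (2 * l + 5) ≤ k := by exact_mod_cast h4
    have h6 : 2 ^ (2 * l + 5) = 4 * (2 * 4 ^ (l + 1)) := by
      rw [pow_add, pow_mul]; norm_num; ring
    omega
  rw [bkCoeff_eq_zero h2, grDim_eq_zero ((Fil_le_Zsp _ _).trans h3), Nat.cast_zero]

end Pool.Agent.Results.MP_cbe134_nt.DepthDrop
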