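import Pool.Agent.Mg.Fcbe134.Ge8b39d

namespace Pool.Agent.Results.MP_cbe134_nt.DepthFour

open Pool.Agent.MP_cbe134_nt

/-- In every weight `k` and every depth `r ≤ 4`, the dimension of the depth-graded piece of the
space of multiple zeta values is at most the Broadhurst-Kreimer coefficient. -/
theorem result : ∀ k r : ℕ, r ≤ 4 → (grDim r k : ℚ) ≤ bkCoeff k r :=
  V.main

end Pool.Agent.Results.MP_cbe134_nt.DepthFour
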