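import Pool.Agent.MP_cbe134_nt.FFMain

/- The depth-graded dimensions of Thakur's multiple zeta values over `F[θ]`. -/

open Pool.Agent.MP_cbe134_nt.FF MvPowerSeries

namespace Pool.Agent.Results.MP_cbe134_nt.FunctionField

theorem result (F : Type*) [Field F] [Fintype F] (q : ℕ) (hq : Fintype.card F = q) :
    ∃ g : ℕ → ℕ → ℕ,
      ser (fun w r => grDim F r w) =
        (1 + X 0 ^ (q - 1) * (1 - X 0 ^ (q - 1))⁻¹ * X 1) * (1 - ser g)⁻¹ ∧
      (∀ w, g w 0 = 0) ∧
      (∀ w, g w 1 = if q - 1 ∣ w then 0 else 1) ∧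
      (∀ w r, w < q ^ r → g w (r + 1) = 0) ∧
      (∀ w, 1 ≤ w → ∑ r ∈ Finset.range (w + 1), g w r + (if q - 1 ∣ w then 1 else 0) =
        (w + q - 1) / q) ∧
      ∀ w, 1 ≤ w → w < q ^ 2 → g w 2 + 1 = (w + q - 1) / q := by
  subst hq
  have ht := tr_tK (F := F)
  have h1 : ∀ w, gg F (tK F) w 1 = if qq F - 1 ∣ w then 0 else 1 := fun w => by
    rcases Nat.eq_zero_or_pos w with rfl | hw
    · simp [gg_of_lt]
    split_ifs with h
    · exact ht.gg_one_of_dvd hw h
    · exact gg_one hw h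
  refine ⟨gg F (tK F), main F, fun _ => ht.gg_zero, h1, fun _ _ => ht.gg_small,
    fun w hw => ht.sum_gg hw (ht.QQ_self hw), fun w hw h => ?_⟩
  have h2 := ht.sum_gg hw (ht.QQ_two hw h)
  simp only [Finset.sum_range_succ, Finset.range_zero, Finset.sum_empty, ht.gg_zero, h1] at h2
  rw [← h2]
  split_ifs <;> omega

end Pool.Agent.Results.MP_cbe134_nt.FunctionField
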