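import Pool.Agent.Mg.Fcbe134ap.Ge96bec
import Pool.Agent.Mg.Fcbe134ap.Gd65a3d

namespace Pool.Agent.Results.MP_cbe134_nt.TotallyOddThree

open Pool.Agent.MP_cbe134_nt

/-- In odd weight, the triple zeta values with all three arguments odd and at least three span
depth three modulo depth two. -/
theorem result : ∀ k : ℕ, Odd k → Fil 3 k = Fil 2 k ⊔ Submodule.span ℚ
    {x | ∃ a b c : ℕ, Odd a ∧ Odd b ∧ Odd c ∧ 3 ≤ a ∧ 3 ≤ b ∧ 3 ≤ c ∧ a + b + c = k ∧
      x = mzv [a, b, c]} :=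
  T3.main T3.core

end Pool.Agent.Results.MP_cbe134_nt.TotallyOddThree
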